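import Mathlib
import Pool.Agent.H469R10.HO.Stmts4

set_option autoImplicit false

/-!
SELBERG-PROJECT (helper469), TASK L: completeness of the cosine system on `[0,2]`.
-/

open Finset

namespace Pool.Agent.H82R3.T469L

open Pool.Agent.H469R10.HO

theorem xx_succ (j : ℕ) : xx (j + 1) = xx j + xx 1 := by
  unfold xx
  push_cast
  ring

/-- the integral of `f` against `cos^n(θ) cos(jθ)` vanishes -/
theorem pow_cos (f : ℝ → ℝ) (hf : Continuous f)
    (h : ∀ j : ℕ, ∫ x in (0:ℝ)..2, f x * Real.cos (xx j * x) = 0) (n : ℕ) :
    ∀ j : ℕ, ∫ x in (0:ℝ)..2, f x * (Real.cos (xx 1 * x) ^ n * Real.cos (xx j * x)) = 0 := by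
  induction n with
  | zero =>
    intro j
    simpa using h j
  | succ n ih =>
    intro j
    cases j with
    | zero =>
      have e : (fun x : ℝ => f x * (Real.cos (xx 1 * x) ^ (n + 1) * Real.cos (xx 0 * x))) =
          fun x => f x * (Real.cos (xx 1 * x) ^ n * Real.cos (xx 1 * x)) := by
        funext x
        have : xx 0 = 0 := by simp [xx]
        rw [this, zero_mul, Real.cos_zero]
        ring
      rw [e]
      exact ih 1
    | succ j =>
      have e : (fun x : ℝ => f x * (Real.cos (xx 1 * x) ^ (n + 1) * Real.cos (xx (j + 1) * x))) =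
          fun x => (1 / 2) * (f x * (Real.cos (xx 1 * x) ^ n * Real.cos (xx (j + 2) * x))) +
            (1 / 2) * (f x * (Real.cos (xx 1 * x) ^ n * Real.cos (xx j * x))) := by
        funext x
        have e1 : xx (j + 2) * x = xx (j + 1) * x + xx 1 * x := by
          rw [show j + 2 = (j + 1) + 1 from rfl, xx_succ (j + 1)]
          ring
        have e2 : xx j * x = xx (j + 1) * x - xx 1 * x := by
          rw [xx_succ j]
          ring
        rw [e1, e2, Real.cos_add, Real.cos_sub]
        ring
      have hc : ∀ i : ℕ, IntervalIntegrable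
          (fun x => (1 / 2) * (f x * (Real.cos (xx 1 * x) ^ n * Real.cos (xx i * x))))
          MeasureTheory.volume 0 2 := by
        intro i
        apply Continuous.intervalIntegrable
        fun_prop
      rw [e, intervalIntegral.integral_add (hc _) (hc _), intervalIntegral.integral_const_mul,
        intervalIntegral.integral_const_mul, ih, ih]
      simp

theorem poly_cos (f : ℝ → ℝ) (hf : Continuous f)
    (h : ∀ j : ℕ, ∫ x in (0:ℝ)..2, f x * Real.cos (xx j * x) = 0) (p : Polynomial ℝ) :
    ∫ x in (0:ℝ)..2, f x * p.eval (Real.cos (xx 1 * x)) = 0 := by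
  have e : (fun x : ℝ => f x * p.eval (Real.cos (xx 1 * x))) =
      fun x => ∑ i ∈ Finset.range (p.natDegree + 1),
        p.coeff i * (f x * (Real.cos (xx 1 * x) ^ i * Real.cos (xx 0 * x))) := by
    funext x
    rw [Polynomial.eval_eq_sum_range, Finset.mul_sum]
    refine Finset.sum_congr rfl fun i _ => ?_
    have : xx 0 = 0 := by simp [xx]
    rw [this, zero_mul, Real.cos_zero]
    ring
  rw [e, intervalIntegral.integral_finset_sum]
  · apply Finset.sum_eq_zero
    intro i _
    rw [intervalIntegral.integral_const_mul, pow_cos f hf h i 0, mul_zero]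
  · intro i _
    apply Continuous.intervalIntegrable
    fun_prop

theorem taskL : TaskL := by
  intro f hf h
  have hsq : ∫ x in (0:ℝ)..2, f x * f x = 0 := by
    set A : ℝ := ∫ x in (0:ℝ)..2, |f x| with hA
    have hA0 : 0 ≤ A := intervalIntegral.integral_nonneg (by norm_num) (fun x _ => abs_nonneg _)
    have hle : ∀ ε : ℝ, 0 < ε → ∫ x in (0:ℝ)..2, f x * f x ≤ ε * A := by
      intro ε hε
      have hcont : ContinuousOn (fun y : ℝ => f (2 / Real.pi * Real.arccos y)) (Set.Icc (-1) 1) := by
        apply Continuous.continuousOn
        have := Real.continuous_arccos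
        fun_prop
      obtain ⟨p, hp⟩ := exists_polynomial_near_of_continuousOn (-1) 1 _ hcont ε hε
      have hnear : ∀ x ∈ Set.Icc (0:ℝ) 2, |p.eval (Real.cos (xx 1 * x)) - f x| ≤ ε := by
        intro x hx
        have h1 := hp (Real.cos (xx 1 * x)) ⟨Real.neg_one_le_cos _, Real.cos_le_one _⟩
        have h2 : Real.arccos (Real.cos (xx 1 * x)) = xx 1 * x := by
          have hpi := Real.pi_pos
          apply Real.arccos_cos
          · unfold xx
            have := hx.1
            positivity
          · unfold xx
            have := hx.2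
            push_cast
            nlinarith
        rw [h2] at h1
        have h3 : 2 / Real.pi * (xx 1 * x) = x := by
          unfold xx
          have := Real.pi_ne_zero
          field_simp
          simp
        rw [h3] at h1
        exact h1.le
      have hcos : Continuous (fun x : ℝ => p.eval (Real.cos (xx 1 * x))) := by
        have h1 : Continuous (fun x : ℝ => Real.cos (xx 1 * x)) := by fun_prop
        exact p.continuous.comp h1
      have e : ∫ x in (0:ℝ)..2, f x * f x =
          ∫ x in (0:ℝ)..2, f x * (f x - p.eval (Real.cos (xx 1 * x))) := by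
        have e1 : (fun x : ℝ => f x * (f x - p.eval (Real.cos (xx 1 * x)))) =
            fun x => f x * f x - f x * p.eval (Real.cos (xx 1 * x)) := by
          funext x; ring
        rw [e1, intervalIntegral.integral_sub, poly_cos f hf h p, sub_zero]
        · exact (hf.mul hf).intervalIntegrable _ _
        · exact (hf.mul hcos).intervalIntegrable _ _
      rw [e, hA, ← intervalIntegral.integral_const_mul]
      refine intervalIntegral.integral_mono_on (by norm_num) ?_ ?_ ?_
      · exact (hf.mul (hf.sub hcos)).intervalIntegrable _ _
      · exact (continuous_const.mul hf.abs).intervalIntegrable _ _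
      · intro x hx
        refine (le_abs_self _).trans ?_
        rw [abs_mul, mul_comm]
        refine mul_le_mul_of_nonneg_right ?_ (abs_nonneg _)
        rw [abs_sub_comm]
        exact hnear x hx
    refine le_antisymm ?_ (intervalIntegral.integral_nonneg (by norm_num)
      (fun x _ => mul_self_nonneg _))
    by_contra hcon
    rw [not_le] at hcon
    set I0 : ℝ := ∫ x in (0:ℝ)..2, f x * f x with hI0
    have h1 := hle (I0 / (2 * (A + 1))) (by positivity)
    have h2 : I0 / (2 * (A + 1)) * A < I0 := by
      rw [div_mul_eq_mul_div, div_lt_iff₀ (by positivity)]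
      nlinarith
    linarith
  intro x hx
  by_contra hne
  have hpos : 0 < ∫ x in (0:ℝ)..2, f x * f x := by
    apply intervalIntegral.integral_pos (by norm_num) (hf.mul hf).continuousOn
    · intro y _
      exact mul_self_nonneg _
    · exact ⟨x, hx, mul_self_pos.2 hne⟩
  linarith

end Pool.Agent.H82R3.T469L
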