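import Mathlib
import Pool.Agent.H469R10.HO.Stmts4

set_option autoImplicit false

/-!
SELBERG-PROJECT (helper469), TASK J: interpolation between the weights `1` and `(1+j)^2`.
-/

open Finset

namespace Pool.Agent.H82R3.T469J

open Pool.Agent.H469R10.HO

/-- the weight `min(1, (1+y)^2/4^l)` -/
noncomputable def mm (l y : ℕ) : ℝ := if 1 + y < 2 ^ l then (1 + (y : ℝ)) ^ 2 / 4 ^ l else 1

/-- the coefficient `W(2^(l+1))` -/
noncomputable def aa (c : ℝ) (l : ℕ) : ℝ := 2 ^ (l + 1) * (Real.log (2 ^ (l + 1) / c)) ^ 4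

theorem mm_nonneg (l y : ℕ) : 0 ≤ mm l y := by
  unfold mm
  split_ifs <;> positivity

theorem mm_le_one (l y : ℕ) : mm l y ≤ 1 := by
  unfold mm
  split_ifs with h
  · rw [div_le_one (by positivity)]
    have h1 : (1 + (y : ℝ)) ≤ 2 ^ l := by exact_mod_cast h.le
    calc (1 + (y : ℝ)) ^ 2 ≤ (2 ^ l) ^ 2 := pow_le_pow_left₀ (by positivity) h1 2
      _ = 4 ^ l := by rw [← pow_mul, mul_comm, pow_mul]; norm_num
  · exact le_rfl

theorem mm_le_sq (l y : ℕ) : mm l y ≤ (1 + (y : ℝ)) ^ 2 / 4 ^ l := by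
  unfold mm
  split_ifs with h
  · exact le_rfl
  · rw [le_div_iff₀ (by positivity), one_mul]
    have h1 : (2 : ℝ) ^ l ≤ 1 + (y : ℝ) := by
      rw [not_lt] at h
      exact_mod_cast h
    calc (4 : ℝ) ^ l = (2 ^ l) ^ 2 := by rw [← pow_mul, mul_comm, pow_mul]; norm_num
      _ ≤ _ := pow_le_pow_left₀ (by positivity) h1 2

/-- the inequality for the weight `mm l` -/
theorem level (cl : ℕ → ℕ) (T : ℕ → ℕ → ℝ) (κ : ℝ) (hκ : 0 ≤ κ)
    (h1 : ∀ (S : Finset ℕ) (β : ℕ → ℝ) (J : ℕ), ∑ j ∈ range J, (∑ n ∈ S, β n * T n j) ^ 2 ≤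
      κ * ∑ y ∈ S.image cl, (∑ n ∈ S.filter (fun n => cl n = y), |β n|) ^ 2)
    (h2 : ∀ (S : Finset ℕ) (β : ℕ → ℝ) (J : ℕ),
      ∑ j ∈ range J, (1 + (j : ℝ)) ^ 2 * (∑ n ∈ S, β n * T n j) ^ 2 ≤
      κ * ∑ y ∈ S.image cl, (1 + (y : ℝ)) ^ 2 * (∑ n ∈ S.filter (fun n => cl n = y), |β n|) ^ 2)
    (S : Finset ℕ) (β : ℕ → ℝ) (J l : ℕ) :
    ∑ j ∈ range J, mm l j * (∑ n ∈ S, β n * T n j) ^ 2 ≤
      2 * κ * ∑ y ∈ S.image cl, mm l y * (∑ n ∈ S.filter (fun n => cl n = y), |β n|) ^ 2 := by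
  classical
  set S1 := S.filter (fun n => 1 + cl n < 2 ^ l) with hS1
  set S2 := S.filter (fun n => ¬ 1 + cl n < 2 ^ l) with hS2
  have hsplit : ∀ j, ∑ n ∈ S, β n * T n j = ∑ n ∈ S1, β n * T n j + ∑ n ∈ S2, β n * T n j :=
    fun j => (Finset.sum_filter_add_sum_filter_not S _ _).symm
  have hsq : ∀ a b : ℝ, (a + b) ^ 2 ≤ 2 * a ^ 2 + 2 * b ^ 2 := fun a b => by
    nlinarith [sq_nonneg (a - b)]
  set B : ℕ → ℝ := fun y => (∑ n ∈ S.filter (fun n => cl n = y), |β n|) ^ 2 with hB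
  have hB0 : ∀ y, 0 ≤ B y := fun y => sq_nonneg _
  have k1 : ∑ j ∈ range J, mm l j * (∑ n ∈ S1, β n * T n j) ^ 2 ≤
      κ * ∑ y ∈ (S.image cl).filter (fun y => 1 + y < 2 ^ l), mm l y * B y := by
    calc ∑ j ∈ range J, mm l j * (∑ n ∈ S1, β n * T n j) ^ 2
        ≤ ∑ j ∈ range J, ((1 + (j : ℝ)) ^ 2 / 4 ^ l) * (∑ n ∈ S1, β n * T n j) ^ 2 :=
          Finset.sum_le_sum fun j _ => mul_le_mul_of_nonneg_right (mm_le_sq l j) (sq_nonneg _)
      _ = (1 / 4 ^ l) * ∑ j ∈ range J, (1 + (j : ℝ)) ^ 2 * (∑ n ∈ S1, β n * T n j) ^ 2 := by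
          rw [Finset.mul_sum]
          refine Finset.sum_congr rfl fun j _ => ?_
          ring
      _ ≤ (1 / 4 ^ l) * (κ * ∑ y ∈ S1.image cl,
            (1 + (y : ℝ)) ^ 2 * (∑ n ∈ S1.filter (fun n => cl n = y), |β n|) ^ 2) :=
          mul_le_mul_of_nonneg_left (h2 S1 β J) (by positivity)
      _ = κ * ∑ y ∈ S1.image cl,
            ((1 + (y : ℝ)) ^ 2 / 4 ^ l) * (∑ n ∈ S1.filter (fun n => cl n = y), |β n|) ^ 2 := by
          rw [Finset.mul_sum, Finset.mul_sum, Finset.mul_sum]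
          refine Finset.sum_congr rfl fun y _ => ?_
          ring
      _ = κ * ∑ y ∈ S1.image cl, mm l y * B y := by
          congr 1
          refine Finset.sum_congr rfl fun y hy => ?_
          rw [Finset.mem_image] at hy
          obtain ⟨n, hn, rfl⟩ := hy
          have hn2 := (Finset.mem_filter.1 hn).2
          have e1 : mm l (cl n) = (1 + ((cl n : ℕ) : ℝ)) ^ 2 / 4 ^ l := by
            unfold mm
            rw [if_pos hn2]
          have e2 : S1.filter (fun m => cl m = cl n) = S.filter (fun m => cl m = cl n) := by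
            ext m
            rw [Finset.mem_filter, Finset.mem_filter, Finset.mem_filter]
            constructor
            · rintro ⟨⟨a, _⟩, b⟩
              exact ⟨a, b⟩
            · rintro ⟨a, b⟩
              refine ⟨⟨a, ?_⟩, b⟩
              rw [b]
              exact hn2
          rw [e1, e2]
      _ ≤ _ := by
          refine mul_le_mul_of_nonneg_left ?_ hκ
          refine Finset.sum_le_sum_of_subset_of_nonneg ?_ (fun y _ _ =>
            mul_nonneg (mm_nonneg l y) (hB0 y))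
          intro y hy
          rw [Finset.mem_image] at hy
          obtain ⟨n, hn, rfl⟩ := hy
          rw [hS1, Finset.mem_filter] at hn
          exact Finset.mem_filter.2 ⟨Finset.mem_image_of_mem _ hn.1, hn.2⟩
  have k2 : ∑ j ∈ range J, mm l j * (∑ n ∈ S2, β n * T n j) ^ 2 ≤
      κ * ∑ y ∈ (S.image cl).filter (fun y => ¬ 1 + y < 2 ^ l), mm l y * B y := by
    calc ∑ j ∈ range J, mm l j * (∑ n ∈ S2, β n * T n j) ^ 2
        ≤ ∑ j ∈ range J, (∑ n ∈ S2, β n * T n j) ^ 2 :=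
          Finset.sum_le_sum fun j _ => mul_le_of_le_one_left (sq_nonneg _) (mm_le_one l j)
      _ ≤ κ * ∑ y ∈ S2.image cl, (∑ n ∈ S2.filter (fun n => cl n = y), |β n|) ^ 2 := h1 S2 β J
      _ = κ * ∑ y ∈ S2.image cl, mm l y * B y := by
          congr 1
          refine Finset.sum_congr rfl fun y hy => ?_
          rw [Finset.mem_image] at hy
          obtain ⟨n, hn, rfl⟩ := hy
          have hn2 := (Finset.mem_filter.1 hn).2
          have e1 : mm l (cl n) = 1 := by
            unfold mm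
            rw [if_neg hn2]
          have e2 : S2.filter (fun m => cl m = cl n) = S.filter (fun m => cl m = cl n) := by
            ext m
            rw [Finset.mem_filter, Finset.mem_filter, Finset.mem_filter]
            constructor
            · rintro ⟨⟨a, _⟩, b⟩
              exact ⟨a, b⟩
            · rintro ⟨a, b⟩
              refine ⟨⟨a, ?_⟩, b⟩
              rw [b]
              exact hn2
          rw [e1, e2, one_mul]
      _ ≤ _ := by
          refine mul_le_mul_of_nonneg_left ?_ hκ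
          refine Finset.sum_le_sum_of_subset_of_nonneg ?_ (fun y _ _ =>
            mul_nonneg (mm_nonneg l y) (hB0 y))
          intro y hy
          rw [Finset.mem_image] at hy
          obtain ⟨n, hn, rfl⟩ := hy
          rw [hS2, Finset.mem_filter] at hn
          exact Finset.mem_filter.2 ⟨Finset.mem_image_of_mem _ hn.1, hn.2⟩
  calc ∑ j ∈ range J, mm l j * (∑ n ∈ S, β n * T n j) ^ 2
      ≤ ∑ j ∈ range J, (2 * (mm l j * (∑ n ∈ S1, β n * T n j) ^ 2) +
          2 * (mm l j * (∑ n ∈ S2, β n * T n j) ^ 2)) := by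
        refine Finset.sum_le_sum fun j _ => ?_
        rw [hsplit j]
        have := mul_le_mul_of_nonneg_left
          (hsq (∑ n ∈ S1, β n * T n j) (∑ n ∈ S2, β n * T n j)) (mm_nonneg l j)
        linarith
    _ = 2 * ∑ j ∈ range J, mm l j * (∑ n ∈ S1, β n * T n j) ^ 2 +
        2 * ∑ j ∈ range J, mm l j * (∑ n ∈ S2, β n * T n j) ^ 2 := by
        rw [Finset.sum_add_distrib, Finset.mul_sum, Finset.mul_sum]
    _ ≤ 2 * (κ * ∑ y ∈ (S.image cl).filter (fun y => 1 + y < 2 ^ l), mm l y * B y) +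
        2 * (κ * ∑ y ∈ (S.image cl).filter (fun y => ¬ 1 + y < 2 ^ l), mm l y * B y) := by
        linarith
    _ = 2 * κ * ∑ y ∈ S.image cl, mm l y * B y := by
        rw [← Finset.sum_filter_add_sum_filter_not (S.image cl) (fun y => 1 + y < 2 ^ l)]
        ring

/-- lower bound of the combination of the weights -/
theorem low (c : ℝ) (hc : 0 < c) (hc1 : c ≤ 1) (j M : ℕ) (hM : j < M) :
    WW c j ≤ ∑ l ∈ range M, aa c l * mm l j := by
  have ha : ∀ l, 0 ≤ aa c l := fun l => by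
    unfold aa
    positivity
  set l := Nat.log 2 (1 + j) with hl
  have h1 : 2 ^ l ≤ 1 + j := Nat.pow_log_le_self 2 (by omega)
  have h2 : 1 + j < 2 ^ (l + 1) := Nat.lt_pow_succ_log_self (by norm_num) _
  have h3 : l < M := by
    have : l < 2 ^ l := Nat.lt_two_pow_self
    omega
  have h4 : mm l j = 1 := by
    unfold mm
    rw [if_neg (not_lt.2 h1)]
  have h5 : WW c j ≤ aa c l := by
    unfold WW aa
    have h6 : (1 + (j : ℝ)) ≤ 2 ^ (l + 1) := by exact_mod_cast h2.le
    have h7 : (0 : ℝ) < 1 + j := by positivity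
    have h8 : 1 ≤ (1 + (j : ℝ)) / c := by
      rw [le_div_iff₀ hc]
      have : (0 : ℝ) ≤ j := Nat.cast_nonneg j
      linarith
    have h9 : Real.log ((1 + (j : ℝ)) / c) ≤ Real.log (2 ^ (l + 1) / c) :=
      Real.log_le_log (by positivity) (div_le_div_of_nonneg_right h6 hc.le)
    have h10 : 0 ≤ Real.log ((1 + (j : ℝ)) / c) := Real.log_nonneg h8
    exact mul_le_mul h6 (pow_le_pow_left₀ h10 h9 4) (by positivity) (by positivity)
  calc WW c j ≤ aa c l * mm l j := by rw [h4, mul_one]; exact h5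
    _ ≤ _ := Finset.single_le_sum (f := fun l => aa c l * mm l j)
        (fun i _ => mul_nonneg (ha i) (mm_nonneg i j)) (Finset.mem_range.2 h3)

/-- the series of the constants -/
theorem summ : Summable (fun i : ℕ => ((i : ℝ) + 3) ^ 4 * (1 / 2 : ℝ) ^ i) := by
  have h0 : ∀ k : ℕ, Summable (fun i : ℕ => (i : ℝ) ^ k * (1 / 2 : ℝ) ^ i) := fun k =>
    summable_pow_mul_geometric_of_norm_lt_one k (by norm_num)
  have h1 := (((((h0 4).add ((h0 3).mul_left 12)).add ((h0 2).mul_left 54)).add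
    ((h0 1).mul_left 108)).add ((h0 0).mul_left 81))
  refine h1.congr fun i => ?_
  ring

/-- upper bound of the combination of the weights -/
theorem upp (c : ℝ) (hc : 0 < c) (hc1 : c ≤ Real.exp (-1)) (y M : ℕ) :
    ∑ l ∈ range M, aa c l * mm l y ≤
      (64 + 4 * ∑' i : ℕ, ((i : ℝ) + 3) ^ 4 * (1 / 2 : ℝ) ^ i) * WW c y := by
  have ha : ∀ l, 0 ≤ aa c l := fun l => by
    unfold aa
    positivity
  set x : ℝ := 1 + (y : ℝ) with hx
  have hx1 : 1 ≤ x := by
    have : (0 : ℝ) ≤ y := Nat.cast_nonneg y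
    linarith
  have hx0 : 0 < x := by linarith
  set L : ℝ := Real.log (x / c) with hL
  have hL1 : 1 ≤ L := by
    rw [hL, Real.log_div hx0.ne' hc.ne']
    have h1 : Real.log c ≤ -1 := by
      rw [Real.log_le_iff_le_exp hc]
      exact hc1
    have h2 := Real.log_nonneg hx1
    linarith
  have hlog2 : Real.log 2 ≤ 1 := by
    have := Real.log_two_lt_d9
    linarith
  have hlog20 : 0 ≤ Real.log 2 := Real.log_nonneg (by norm_num)
  set l0 := Nat.log 2 (1 + y) with hl0
  have h1 : (2 : ℝ) ^ l0 ≤ x := by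
    rw [hx]
    exact_mod_cast Nat.pow_log_le_self 2 (show 1 + y ≠ 0 by omega)
  have h2 : x < 2 ^ (l0 + 1) := by
    rw [hx]
    exact_mod_cast Nat.lt_pow_succ_log_self (b := 2) (by norm_num) (1 + y)
  -- bound of the logarithm
  have hlg : ∀ i : ℕ, Real.log (2 ^ (l0 + i + 1) / c) ≤ (i + 2) * L := by
    intro i
    have e1 : (2 : ℝ) ^ (l0 + i + 1) / c ≤ 2 ^ (i + 1) * (x / c) := by
      have : (2 : ℝ) ^ (l0 + i + 1) = 2 ^ (i + 1) * 2 ^ l0 := by
        rw [← pow_add]
        congr 1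
        omega
      rw [this, mul_div_assoc]
      exact mul_le_mul_of_nonneg_left (div_le_div_of_nonneg_right h1 hc.le) (by positivity)
    have e2 := Real.log_le_log (by positivity) e1
    rw [Real.log_mul (by positivity) (by positivity), Real.log_pow] at e2
    push_cast at e2
    have e3 : ((i : ℝ) + 1) * Real.log 2 ≤ ((i : ℝ) + 1) * L :=
      mul_le_mul_of_nonneg_left (by linarith) (by positivity)
    linarith
  have hnn : ∀ l : ℕ, 0 ≤ Real.log (2 ^ (l + 1) / c) := by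
    intro l
    apply Real.log_nonneg
    rw [le_div_iff₀ hc, one_mul]
    have e1 : c ≤ 1 := hc1.trans (Real.exp_le_one_iff.2 (by norm_num))
    have e2 : (1 : ℝ) ≤ 2 ^ (l + 1) := one_le_pow₀ (by norm_num)
    linarith
  -- first part
  have p1 : ∑ l ∈ range (l0 + 1), aa c l * mm l y ≤ 64 * (x * L ^ 4) := by
    have q1 : ∀ l ∈ range (l0 + 1), aa c l * mm l y ≤ 2 ^ l * (32 * L ^ 4) := by
      intro l hl
      rw [Finset.mem_range] at hl
      calc aa c l * mm l y ≤ aa c l * 1 := mul_le_mul_of_nonneg_left (mm_le_one l y) (ha l)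
        _ = aa c l := mul_one _
        _ ≤ 2 ^ (l + 1) * (2 * L) ^ 4 := by
            unfold aa
            refine mul_le_mul_of_nonneg_left ?_ (by positivity)
            refine pow_le_pow_left₀ (hnn l) ?_ 4
            have e1 : Real.log (2 ^ (l + 1) / c) ≤ Real.log (2 ^ (l0 + 0 + 1) / c) := by
              refine Real.log_le_log (by positivity) (div_le_div_of_nonneg_right ?_ hc.le)
              exact pow_le_pow_right₀ (by norm_num) (by omega)
            have e2 := hlg 0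
            push_cast at e2
            linarith
        _ = 2 ^ l * (32 * L ^ 4) := by rw [pow_succ]; ring
    refine (Finset.sum_le_sum q1).trans ?_
    rw [← Finset.sum_mul]
    have q2 : ∑ l ∈ range (l0 + 1), (2 : ℝ) ^ l ≤ 2 ^ (l0 + 1) := by
      have := geom_sum_eq (show (2 : ℝ) ≠ 1 by norm_num) (l0 + 1)
      rw [this]
      have : (2 : ℝ) - 1 = 1 := by norm_num
      rw [this, div_one]
      linarith
    have q3 : (2 : ℝ) ^ (l0 + 1) ≤ 2 * x := by
      rw [pow_succ]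
      linarith
    calc (∑ l ∈ range (l0 + 1), (2 : ℝ) ^ l) * (32 * L ^ 4) ≤ (2 * x) * (32 * L ^ 4) :=
          mul_le_mul_of_nonneg_right (q2.trans q3) (by positivity)
      _ = _ := by ring
  -- second part
  have p2 : ∑ i ∈ range M, aa c (l0 + 1 + i) * mm (l0 + 1 + i) y ≤
      4 * (∑' i : ℕ, ((i : ℝ) + 3) ^ 4 * (1 / 2 : ℝ) ^ i) * (x * L ^ 4) := by
    have q1 : ∀ i ∈ range M, aa c (l0 + 1 + i) * mm (l0 + 1 + i) y ≤
        4 * (x * L ^ 4) * (((i : ℝ) + 3) ^ 4 * (1 / 2 : ℝ) ^ i) := by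
      intro i _
      have e1 : aa c (l0 + 1 + i) ≤ 2 ^ (l0 + 1 + i + 1) * (((i : ℝ) + 3) * L) ^ 4 := by
        unfold aa
        refine mul_le_mul_of_nonneg_left ?_ (by positivity)
        refine pow_le_pow_left₀ (hnn _) ?_ 4
        have := hlg (i + 1)
        rw [show l0 + (i + 1) + 1 = l0 + 1 + i + 1 by omega] at this
        push_cast at this
        linarith
      have e2 := mm_le_sq (l0 + 1 + i) y
      rw [← hx] at e2
      have e3 : (2 : ℝ) ^ (l0 + 1 + i + 1) * (((i : ℝ) + 3) * L) ^ 4 * (x ^ 2 / 4 ^ (l0 + 1 + i)) =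
          (2 * x * (1 / 2 : ℝ) ^ i * (((i : ℝ) + 3) ^ 4 * L ^ 4)) * (x / 2 ^ (l0 + 1)) := by
        have : (4 : ℝ) ^ (l0 + 1 + i) = (2 ^ (l0 + 1 + i)) ^ 2 := by
          rw [← pow_mul, mul_comm, pow_mul]; norm_num
        rw [this, pow_succ (2 : ℝ) (l0 + 1 + i), pow_add (2 : ℝ) (l0 + 1) i, one_div, inv_pow]
        field_simp
      have e4 : x / 2 ^ (l0 + 1) ≤ 1 := (div_le_one (by positivity)).2 h2.le
      calc aa c (l0 + 1 + i) * mm (l0 + 1 + i) y ≤
          (2 ^ (l0 + 1 + i + 1) * (((i : ℝ) + 3) * L) ^ 4) * (x ^ 2 / 4 ^ (l0 + 1 + i)) :=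
            mul_le_mul e1 e2 (mm_nonneg _ _) (by positivity)
        _ = (2 * x * (1 / 2 : ℝ) ^ i * (((i : ℝ) + 3) ^ 4 * L ^ 4)) * (x / 2 ^ (l0 + 1)) := e3
        _ ≤ (2 * x * (1 / 2 : ℝ) ^ i * (((i : ℝ) + 3) ^ 4 * L ^ 4)) * 1 :=
            mul_le_mul_of_nonneg_left e4 (by positivity)
        _ ≤ _ := by
            have e5 : 0 ≤ x * L ^ 4 * (((i : ℝ) + 3) ^ 4 * (1 / 2 : ℝ) ^ i) := by positivity
            linarith
    refine (Finset.sum_le_sum q1).trans ?_
    rw [← Finset.mul_sum]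
    have q2 : ∑ i ∈ range M, ((i : ℝ) + 3) ^ 4 * (1 / 2 : ℝ) ^ i ≤
        ∑' i : ℕ, ((i : ℝ) + 3) ^ 4 * (1 / 2 : ℝ) ^ i :=
      summ.sum_le_tsum _ (fun i _ => by positivity)
    have := mul_le_mul_of_nonneg_left q2 (show 0 ≤ 4 * (x * L ^ 4) by positivity)
    linarith
  have hW : WW c y = x * L ^ 4 := rfl
  calc ∑ l ∈ range M, aa c l * mm l y ≤ ∑ l ∈ range (l0 + 1 + M), aa c l * mm l y := by
        refine Finset.sum_le_sum_of_subset_of_nonneg ?_ (fun l _ _ =>
          mul_nonneg (ha l) (mm_nonneg l y))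
        intro l hl
        rw [Finset.mem_range] at hl ⊢
        omega
    _ = ∑ l ∈ range (l0 + 1), aa c l * mm l y +
        ∑ i ∈ range M, aa c (l0 + 1 + i) * mm (l0 + 1 + i) y := Finset.sum_range_add _ _ _
    _ ≤ _ := by
        rw [hW]
        linarith

theorem taskJ : TaskJ := by
  classical
  refine ⟨2 * (64 + 4 * ∑' i : ℕ, ((i : ℝ) + 3) ^ 4 * (1 / 2 : ℝ) ^ i), Real.exp (-1), ?_,
    Real.exp_pos _, ?_⟩
  · have : 0 ≤ ∑' i : ℕ, ((i : ℝ) + 3) ^ 4 * (1 / 2 : ℝ) ^ i :=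
      tsum_nonneg fun i => by positivity
    positivity
  intro c hc hc1 cl T κ hκ h1 h2 S β J
  have hc2 : c ≤ 1 := hc1.trans (Real.exp_le_one_iff.2 (by norm_num))
  have ha : ∀ l, 0 ≤ aa c l := fun l => by
    unfold aa
    positivity
  set K : ℝ := 64 + 4 * ∑' i : ℕ, ((i : ℝ) + 3) ^ 4 * (1 / 2 : ℝ) ^ i with hK
  calc ∑ j ∈ range J, WW c j * (∑ n ∈ S, β n * T n j) ^ 2
      ≤ ∑ j ∈ range J, (∑ l ∈ range J, aa c l * mm l j) * (∑ n ∈ S, β n * T n j) ^ 2 := by
        refine Finset.sum_le_sum fun j hj => mul_le_mul_of_nonneg_right ?_ (sq_nonneg _)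
        exact low c hc hc2 j J (Finset.mem_range.1 hj)
    _ = ∑ l ∈ range J, aa c l * ∑ j ∈ range J, mm l j * (∑ n ∈ S, β n * T n j) ^ 2 := by
        simp only [Finset.sum_mul, Finset.mul_sum]
        rw [Finset.sum_comm]
        refine Finset.sum_congr rfl fun l _ => Finset.sum_congr rfl fun j _ => ?_
        ring
    _ ≤ ∑ l ∈ range J, aa c l * (2 * κ * ∑ y ∈ S.image cl,
          mm l y * (∑ n ∈ S.filter (fun n => cl n = y), |β n|) ^ 2) := by
        refine Finset.sum_le_sum fun l _ => mul_le_mul_of_nonneg_left ?_ (ha l)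
        exact level cl T κ hκ h1 h2 S β J l
    _ = 2 * κ * ∑ y ∈ S.image cl, (∑ l ∈ range J, aa c l * mm l y) *
          (∑ n ∈ S.filter (fun n => cl n = y), |β n|) ^ 2 := by
        simp only [Finset.sum_mul, Finset.mul_sum]
        rw [Finset.sum_comm]
        refine Finset.sum_congr rfl fun y _ => Finset.sum_congr rfl fun l _ => ?_
        ring
    _ ≤ 2 * κ * ∑ y ∈ S.image cl, (K * WW c y) *
          (∑ n ∈ S.filter (fun n => cl n = y), |β n|) ^ 2 := by
        refine mul_le_mul_of_nonneg_left ?_ (by positivity)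
        refine Finset.sum_le_sum fun y _ => mul_le_mul_of_nonneg_right ?_ (sq_nonneg _)
        exact upp c hc hc1 y J
    _ = 2 * K * κ * ∑ y ∈ S.image cl, WW c y *
          (∑ n ∈ S.filter (fun n => cl n = y), |β n|) ^ 2 := by
        rw [Finset.mul_sum, Finset.mul_sum]
        refine Finset.sum_congr rfl fun y _ => ?_
        ring

end Pool.Agent.H82R3.T469J
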