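import Pool.Agent.H286R5.ZakX

/-! Project H286-ZAK: the threefold is nondegenerate. -/

namespace Pool.Agent.H82R3.Zak

open Pool.Agent.H286R4 Pool.Agent.H286R5 MvPolynomial

theorem taskNondeg : TaskNondeg := by
  intro l hl hl0
  by_contra hcon
  push Not at hcon
  have hvan : ∀ a b x y z, MvPolynomial.eval (Psi a b x y z) l = 0 := by
    intro a b x y z
    by_cases h0 : Psi a b x y z = 0
    · rw [h0]
      have h1 := hl.sum_X_mul_pderiv
      have h2 := congrArg (MvPolynomial.eval (0 : Fin 6 → ℂ)) h1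
      simp only [map_sum, map_mul, eval_X, Pi.zero_apply, zero_mul, Finset.sum_const_zero,
        one_smul] at h2
      exact h2.symm
    · have hmem : Projectivization.mk ℂ (Psi a b x y z) h0 ∈ XZ := by
        intro m f hf hv
        exact (eval_rep_mk hf _ h0).mpr (hv a b x y z)
      have h1 := hcon _ hmem
      exact (eval_rep_mk hl _ h0).mp h1
  -- the coefficients
  have hC : ∀ i, pderiv i l = C (coeff 0 (pderiv i l)) := by
    intro i
    have h1 : (pderiv i l).IsHomogeneous 0 := by simpa using hl.pderiv (i := i)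
    have h2 : (pderiv i l).totalDegree = 0 := Nat.le_zero.mp h1.totalDegree_le
    exact totalDegree_eq_zero_iff_eq_C.mp h2
  set c : Fin 6 → ℂ := fun i => coeff 0 (pderiv i l) with hc
  have hrep : l = ∑ i, X i * C (c i) := by
    have h1 := hl.sum_X_mul_pderiv
    rw [one_smul] at h1
    rw [← h1]
    refine Finset.sum_congr rfl fun i _ => ?_
    rw [hC i]
  have hev : ∀ a b x y z, ∑ i, Psi a b x y z i * c i = 0 := by
    intro a b x y z
    have h1 := hvan a b x y z
    rw [hrep] at h1
    simpa only [map_sum, map_mul, eval_X, eval_C] using h1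
  have e3 := hev 1 1 1 0 0
  have e2 := hev 1 1 0 0 1
  have e4 := hev 1 1 1 0 1
  have e5 := hev 1 1 1 0 (-1)
  have e0 := hev 1 1 1 1 1
  have e1 := hev 1 2 1 1 1
  simp only [Psi, Fin.sum_univ_six, Matrix.cons_val_zero, Matrix.cons_val_one,
    Matrix.cons_val] at e0 e1 e2 e3 e4 e5
  norm_num at e0 e1 e2 e3 e4 e5
  have c4 : c 4 = 0 := by linear_combination (e4 - e5 - 2 * e2) / 2
  have c5 : c 5 = 0 := by linear_combination (e4 + e5) / 2 - e3
  have c0 : c 0 = 0 := by
    rw [c4, c5, e2, e3] at e0 e1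
    linear_combination (2 * e1 - 3 * e0) / 6
  have c1 : c 1 = 0 := by
    rw [c4, c5, e2, e3] at e0
    rw [c0] at e0
    linear_combination e0 / 2
  apply hl0
  rw [hrep]
  simp only [Fin.sum_univ_six, c0, c1, e2, e3, c4, c5, map_zero, mul_zero, add_zero]

end Pool.Agent.H82R3.Zak
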