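import Mathlib
import Pool.Agent.H853R3.Task469G
import Pool.Agent.H902R3.PZ.Stmts

set_option autoImplicit false

open MeasureTheory Set Filter Topology

namespace Pool.Agent.H82R3.PZG1

open Pool.Agent.H853R3.Bol Pool.Agent.H902R3.PZ

/-- scaling of the kernel -/
lemma K_scale (n : ℕ) (t v : ℝ) (ht : 0 < t) : K n t (t * v) = (t ^ (n + 1))⁻¹ * K n 1 v := by
  unfold K
  have ht0 : (t : ℂ) ≠ 0 := by exact_mod_cast ht.ne'
  have e1 : (t : ℂ) + ((t * v : ℝ) : ℂ) * Complex.I = (t : ℂ) * (((1 : ℝ) : ℂ) + v * Complex.I) := by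
    push_cast; ring
  have e2 : (1 : ℂ) / ((t : ℂ) + ((t * v : ℝ) : ℂ) * Complex.I) ^ (n + 1) =
      (((t ^ (n + 1))⁻¹ : ℝ) : ℂ) * (1 / (((1 : ℝ) : ℂ) + v * Complex.I) ^ (n + 1)) := by
    rw [e1, mul_pow]
    push_cast
    rw [one_div, mul_inv, one_div]
  rw [e2, Complex.re_ofReal_mul]

/-- bound of the kernel -/
lemma K_bound (m : ℕ) (t x : ℝ) (ht : 0 < t) : |K (2 * m + 1) t x| ≤ ((t ^ 2 + x ^ 2) ^ (m + 1))⁻¹ := by
  unfold K
  refine (Complex.abs_re_le_norm _).trans ?_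
  rw [norm_div, norm_one, norm_pow, show 2 * m + 1 + 1 = 2 * (m + 1) by ring, pow_mul, norm_sq_lower, one_div]

/-- integrability of `x ^ m * K` times a bounded function -/
lemma int_mul (m : ℕ) (hm : 1 ≤ m) (t : ℝ) (ht : 0 < t) (g : ℝ → ℝ) (hg : ContinuousOn g (Ioi 0)) (B : ℝ)
    (hB : ∀ x, |g x| ≤ B) :
    IntegrableOn (fun x : ℝ => x ^ m * g x * K (2 * m + 1) t x) (Ioi 0) := by
  have hB0 : 0 ≤ B := (abs_nonneg _).trans (hB 0)
  -- x ^ m / (t^2+x^2)^(m+1) ≤ const / (1 + x^2)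
  have hmin : 0 < min (t ^ 2) 1 := lt_min (by positivity) one_pos
  have hdom : IntegrableOn (fun x : ℝ => (B * (t ^ 2)⁻¹ ^ 0 * ((min (t ^ 2) 1)⁻¹ ^ (m + 1))) * (1 + x ^ 2)⁻¹) (Ioi 0) :=
    (integrable_inv_one_add_sq.const_mul _).integrableOn
  refine Integrable.mono' hdom ?_ ?_
  · apply ContinuousOn.aestronglyMeasurable _ measurableSet_Ioi
    apply ContinuousOn.mul
    · exact (continuous_id.pow m).continuousOn.mul hg
    · apply Continuous.continuousOn
      unfold K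
      apply Complex.continuous_re.comp
      apply Continuous.div continuous_const (by fun_prop)
      intro x
      exact pow_ne_zero _ (ne_zero' t ht x)
  · refine (ae_restrict_mem measurableSet_Ioi).mono ?_
    intro x hx
    have hx0 : (0 : ℝ) < x := hx
    rw [Real.norm_eq_abs, abs_mul, abs_mul, abs_of_pos (pow_pos hx0 m)]
    have h1 := K_bound m t x ht
    have h2 : min (t ^ 2) 1 * (1 + x ^ 2) ≤ t ^ 2 + x ^ 2 := by
      have h3 : min (t ^ 2) 1 ≤ t ^ 2 := min_le_left _ _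
      have h4 : min (t ^ 2) 1 ≤ 1 := min_le_right _ _
      nlinarith [sq_nonneg x]
    have h5 : x ^ m ≤ (1 + x ^ 2) ^ m := by
      apply pow_le_pow_left₀ hx0.le
      nlinarith [sq_nonneg (x - 1)]
    have h6 : ((t ^ 2 + x ^ 2) ^ (m + 1))⁻¹ ≤ ((min (t ^ 2) 1 * (1 + x ^ 2)) ^ (m + 1))⁻¹ := by
      apply inv_anti₀ (by positivity)
      exact pow_le_pow_left₀ (by positivity) h2 _
    calc x ^ m * |g x| * |K (2 * m + 1) t x|
        ≤ (1 + x ^ 2) ^ m * B * ((min (t ^ 2) 1 * (1 + x ^ 2)) ^ (m + 1))⁻¹ := by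
          apply mul_le_mul (mul_le_mul h5 (hB x) (abs_nonneg _) (by positivity)) (h1.trans h6) (abs_nonneg _)
          positivity
      _ = B * (t ^ 2)⁻¹ ^ 0 * ((min (t ^ 2) 1)⁻¹ ^ (m + 1)) * (1 + x ^ 2)⁻¹ := by
          rw [mul_pow, mul_inv, pow_succ (1 + x ^ 2), mul_inv, pow_zero, mul_one, inv_pow]
          have : (1 + x ^ 2) ^ m ≠ 0 := by positivity
          field_simp

lemma sin_log_cont (L : ℝ) : ContinuousOn (fun x : ℝ => Real.sin (L * Real.log x)) (Ioi 0) := by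
  apply Real.continuous_sin.comp_continuousOn
  apply ContinuousOn.mul continuousOn_const
  apply Real.continuousOn_log.mono
  intro x hx
  exact ne_of_gt hx

lemma cos_log_cont (L : ℝ) : ContinuousOn (fun x : ℝ => Real.cos (L * Real.log x)) (Ioi 0) := by
  apply Real.continuous_cos.comp_continuousOn
  apply ContinuousOn.mul continuousOn_const
  apply Real.continuousOn_log.mono
  intro x hx
  exact ne_of_gt hx

/-- the odd part vanishes -/
lemma sin_zero (m : ℕ) (hm : Odd m) (L : ℝ) :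
    ∫ v in Ioi (0 : ℝ), v ^ m * Real.sin (L * Real.log v) * K (2 * m + 1) 1 v = 0 := by
  set g : ℝ → ℝ := fun v => v ^ m * Real.sin (L * Real.log v) * K (2 * m + 1) 1 v with hg
  have h3 := integral_comp_rpow_Ioi g (p := -1) (by norm_num)
  have h4 : ∫ x in Ioi (0 : ℝ), (|(-1 : ℝ)| * x ^ ((-1 : ℝ) - 1)) • g (x ^ (-1 : ℝ)) =
      ∫ x in Ioi (0 : ℝ), - g x := by
    refine setIntegral_congr_fun measurableSet_Ioi fun x hx => ?_
    have hx0 : (0 : ℝ) < x := hx
    have e1 : x ^ (-1 : ℝ) = x⁻¹ := Real.rpow_neg_one x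
    have e2 : x ^ ((-1 : ℝ) - 1) = (x ^ 2)⁻¹ := by
      rw [show ((-1 : ℝ) - 1) = -((2 : ℕ) : ℝ) by norm_num, Real.rpow_neg hx0.le, Real.rpow_natCast]
    have e3 := K_inv m 1 x one_pos hx0
    rw [inv_one] at e3
    have e5 : (-1 : ℝ) ^ (m + 1) = 1 := (hm.add_one).neg_one_pow
    simp only [hg, smul_eq_mul, abs_neg, abs_one, one_mul]
    rw [e1, e2, e3, e5, Real.log_inv]
    have e6 : Real.sin (L * -Real.log x) = - Real.sin (L * Real.log x) := by
      rw [mul_neg, Real.sin_neg]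
    rw [e6]
    have h6 : x ^ m ≠ 0 := (pow_pos hx0 _).ne'
    have h7 : x ^ (2 * m + 2) = x ^ m * x ^ m * x ^ 2 := by ring
    rw [one_mul, one_mul, h7, inv_pow]
    field_simp
  rw [h3, integral_neg] at h4
  linarith

/-- the inhomogeneous term against the kernel -/
lemma RR_int (m : ℕ) (hm : Odd m) (C L t : ℝ) (ht : 0 < t) :
    ∫ x in Ioi (0 : ℝ), RR m C L x * K (2 * m + 1) t x =
      C * (t ^ (m + 1))⁻¹ * Real.sin (L * Real.log t) *
        ∫ v in Ioi (0 : ℝ), v ^ m * Real.cos (L * Real.log v) * K (2 * m + 1) 1 v := by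
  have hm1 : 1 ≤ m := hm.pos
  have h1 := integral_comp_mul_left_Ioi (fun x : ℝ => RR m C L x * K (2 * m + 1) t x) 0 ht
  rw [mul_zero] at h1
  have h2 : ∫ x in Ioi (0 : ℝ), RR m C L x * K (2 * m + 1) t x =
      t * ∫ v in Ioi (0 : ℝ), RR m C L (t * v) * K (2 * m + 1) t (t * v) := by
    rw [h1, smul_eq_mul, ← mul_assoc, mul_inv_cancel₀ ht.ne', one_mul]
  have h3 : ∫ v in Ioi (0 : ℝ), RR m C L (t * v) * K (2 * m + 1) t (t * v) =
      ∫ v in Ioi (0 : ℝ), ((C * t ^ m * (t ^ (2 * m + 2))⁻¹ * Real.sin (L * Real.log t)) *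
          (v ^ m * Real.cos (L * Real.log v) * K (2 * m + 1) 1 v) +
        (C * t ^ m * (t ^ (2 * m + 2))⁻¹ * Real.cos (L * Real.log t)) *
          (v ^ m * Real.sin (L * Real.log v) * K (2 * m + 1) 1 v)) := by
    refine setIntegral_congr_fun measurableSet_Ioi fun v hv => ?_
    have hv0 : (0 : ℝ) < v := hv
    simp only [RR]
    rw [K_scale (2 * m + 1) t v ht, Real.log_mul ht.ne' hv0.ne', mul_add, Real.sin_add, mul_pow]
    ring
  rw [h2, h3, integral_add, integral_const_mul, integral_const_mul, sin_zero m hm L, mul_zero, add_zero]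
  · have h4 : t ^ (2 * m + 2) = t ^ m * t * t ^ (m + 1) := by ring
    have h5 : t ^ m ≠ 0 := (pow_pos ht _).ne'
    rw [h4]
    field_simp
  · exact (int_mul m hm1 1 one_pos _ (cos_log_cont L) 1 (fun x => Real.abs_cos_le_one _)).const_mul _
  · exact (int_mul m hm1 1 one_pos _ (sin_log_cont L) 1 (fun x => Real.abs_sin_le_one _)).const_mul _

theorem taskG1 : TaskG1 := by
  intro m hmo α u hα hu0 hu C L hrel t ht
  have hm : 1 ≤ m := hmo.pos
  have hun : ∀ j, 0 ≤ u j := by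
    intro j
    rcases Nat.eq_zero_or_pos j with h | h
    · rw [h, hu0]
    · exact (hu j h).le
  have hti : 0 < t⁻¹ := inv_pos.2 ht
  have h1 := theta_eq t⁻¹ hti (2 * m + 1) (by omega) α u hα hun
  have h2 := theta_eq t ht (2 * m + 1) (by omega) α u hα hun
  simp_rw [div_eq_mul_inv]
  rw [h1, h2]
  set g : ℝ → ℝ := fun x => (∑' j, α j * Real.cos (u j * x)) * K (2 * m + 1) t⁻¹ x with hg
  have h3 := integral_comp_rpow_Ioi g (p := -1) (by norm_num)
  rw [← h3]
  have e5 : (-1 : ℝ) ^ (m + 1) = 1 := (hmo.add_one).neg_one_pow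
  have h4 : ∫ x in Ioi (0 : ℝ), (|(-1 : ℝ)| * x ^ ((-1 : ℝ) - 1)) • g (x ^ (-1 : ℝ)) =
      ∫ x in Ioi (0 : ℝ), (t ^ (2 * m + 2) *
        ((∑' j, α j * Real.cos (u j * x)) * K (2 * m + 1) t x) -
          t ^ (2 * m + 2) * (RR m C L x * K (2 * m + 1) t x)) := by
    refine setIntegral_congr_fun measurableSet_Ioi fun x hx => ?_
    have hx0 : (0 : ℝ) < x := hx
    have e1 : x ^ (-1 : ℝ) = x⁻¹ := Real.rpow_neg_one x
    have e2 : x ^ ((-1 : ℝ) - 1) = (x ^ 2)⁻¹ := by
      rw [show ((-1 : ℝ) - 1) = -((2 : ℕ) : ℝ) by norm_num, Real.rpow_neg hx0.le, Real.rpow_natCast]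
    have e3 := hrel x hx0
    simp only [hg, smul_eq_mul, abs_neg, abs_one, one_mul]
    rw [e1, e2, K_inv m t x ht hx0, e5, one_mul]
    have e4 : ∑' j, α j * Real.cos (u j * x⁻¹) =
        (x ^ (2 * m))⁻¹ * ((∑' j, α j * Real.cos (u j * x)) - RR m C L x) := by
      rw [e3]
      simp_rw [div_eq_mul_inv]
      have hx1 : (x ^ (2 * m))⁻¹ * x ^ (2 * m) = 1 := inv_mul_cancel₀ (pow_pos hx0 _).ne'
      generalize (∑' j, α j * Real.cos (u j * x⁻¹)) = S
      linear_combination (-S) * hx1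
    rw [e4, mul_pow]
    have h5 : x ^ (2 * m + 2) = x ^ (2 * m) * x ^ 2 := by ring
    have h6 : x ^ (2 * m) ≠ 0 := (pow_pos hx0 _).ne'
    rw [h5]
    field_simp
  have hI2 : IntegrableOn (fun x : ℝ => RR m C L x * K (2 * m + 1) t x) (Ioi 0) := by
    have := (int_mul m hm t ht _ (sin_log_cont L) 1 (fun x => Real.abs_sin_le_one _)).const_mul C
    refine this.congr (Eventually.of_forall fun x => ?_)
    simp only [RR]
    ring
  have hI1 : IntegrableOn (fun x : ℝ => (∑' j, α j * Real.cos (u j * x)) * K (2 * m + 1) t x) (Ioi 0) := by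
    have hKi : IntegrableOn (K (2 * m + 1) t) (Ioi 0) := (K_int t ht (2 * m + 1) (by omega)).integrableOn
    refine hKi.bdd_mul (c := ∑' j, |α j|) ?_ ?_
    · apply Continuous.aestronglyMeasurable
      refine continuous_tsum (fun j => by fun_prop) hα (fun j x => ?_)
      rw [Real.norm_eq_abs, abs_mul]
      exact mul_le_of_le_one_right (abs_nonneg _) (Real.abs_cos_le_one _)
    · refine Eventually.of_forall fun x => ?_
      rw [Real.norm_eq_abs]
      have hs : Summable fun j => |α j * Real.cos (u j * x)| := by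
        refine Summable.of_nonneg_of_le (fun j => abs_nonneg _) (fun j => ?_) hα
        rw [abs_mul]
        exact mul_le_of_le_one_right (abs_nonneg _) (Real.abs_cos_le_one _)
      have h8 : ‖∑' j, α j * Real.cos (u j * x)‖ ≤ ∑' j, ‖α j * Real.cos (u j * x)‖ :=
        norm_tsum_le_tsum_norm hs
      rw [Real.norm_eq_abs] at h8
      refine h8.trans ?_
      refine Summable.tsum_le_tsum (fun j => ?_) hs hα
      rw [Real.norm_eq_abs, abs_mul]
      exact mul_le_of_le_one_right (abs_nonneg _) (Real.abs_cos_le_one _)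
  rw [h4, integral_sub (hI1.const_mul _) (hI2.const_mul _), integral_const_mul, integral_const_mul, RR_int m hmo C L t ht]
  have hAA : AA m L = 2 * (2 * m + 1).factorial / Real.pi *
      ∫ v in Ioi (0 : ℝ), v ^ m * Real.cos (L * Real.log v) * K (2 * m + 1) 1 v := by
    unfold AA K
    push_cast
    rfl
  rw [hAA]
  have h7 : t ^ (2 * m + 2) = t ^ (m + 1) * t ^ (m + 1) := by ring
  have h8 : t ^ (m + 1) ≠ 0 := (pow_pos ht _).ne'
  generalize (∫ v in Ioi (0 : ℝ), v ^ m * Real.cos (L * Real.log v) * K (2 * m + 1) 1 v) = I1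
  generalize (∫ x in Ioi (0 : ℝ), (∑' j, α j * Real.cos (u j * x)) * K (2 * m + 1) t x) = I2
  rw [h7]
  have hpi := Real.pi_ne_zero
  field_simp

end Pool.Agent.H82R3.PZG1

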